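import Pool.Agent.Work.MP_408f4b_gt.Q.Inst

set_option autoImplicit false

/-!
# Hypersurfaces of the space of the Hermitian `3 × 3` matrices of trace zero over `ℝ`, `ℂ`, `ℍ`,
invariant under `U(3)`: definitions
-/

namespace Pool.Agent.Work.MP_408f4b_gt.A2

open MeasureTheory Set Pool.Agent.Work.MP_408f4b_gt.Q

/-- The space of the `3 × 3` matrices over `F` with its Euclidean norm. -/
abbrev Mat3 (F : Type) : Type := PiLp 2 (fun _ : Fin 3 × Fin 3 => F)

/-- The matrix `v v*`. -/
def prj {F : Type} [NormedRing F] [StarRing F] (v : Vec F 3) : Mat3 F :=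
  WithLp.toLp 2 fun ij : Fin 3 × Fin 3 => v ij.1 * star (v ij.2)

/-- The profile curve `s ↦ (x s, y s, z s)`, `0 ≤ s ≤ L`, of a compact connected embedded free
boundary minimal hypersurface of the unit ball of the space of the Hermitian `3 × 3` matrices of
trace zero invariant under `U(3)`: the hypersurface is the set of the matrices with eigenvalues
`x s ≥ y s ≥ z s`. The volume of the orbit of the matrices with eigenvalues `x`, `y`, `z` is a
constant multiple of `((x - y) (x - z) (y - z))^m`, where `m` is the real dimension of `F`. -/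
structure Profile (m : ℕ) where
  /-- the length of the curve -/
  L : ℝ
  /-- the largest eigenvalue -/
  x : ℝ → ℝ
  /-- the second eigenvalue -/
  y : ℝ → ℝ
  /-- the smallest eigenvalue -/
  z : ℝ → ℝ
  L_pos : 0 < L
  x_C2 : ContDiff ℝ 2 x
  y_C2 : ContDiff ℝ 2 y
  z_C2 : ContDiff ℝ 2 z
  /-- the trace is zero -/
  trace : ∀ s, x s + y s + z s = 0
  /-- parametrisation by arclength -/
  arclength : ∀ s ∈ Icc 0 L, deriv x s ^ 2 + deriv y s ^ 2 + deriv z s ^ 2 = 1
  /-- the curve is simple: the hypersurface is embedded -/
  injOn : InjOn (fun s => (x s, y s)) (Icc 0 L)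
  /-- away from its ends the curve is in the open Weyl chamber and in the open unit disc -/
  interior : ∀ s ∈ Ioo 0 L, z s < y s ∧ y s < x s ∧ x s ^ 2 + y s ^ 2 + z s ^ 2 < 1
  /-- the mean curvature of the hypersurface vanishes -/
  minimal : ∀ s ∈ Ioo 0 L, deriv x s * deriv (deriv y) s - deriv y s * deriv (deriv x) s =
    m * (deriv x s / (y s - z s) - deriv y s / (x s - z s) + deriv z s / (x s - y s))
  /-- the last point of the curve is on the unit circle, and the curve is orthogonal to it -/
  final : z L < y L ∧ y L < x L ∧ x L ^ 2 + y L ^ 2 + z L ^ 2 = 1 ∧ deriv x L = x L ∧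
    deriv y L = y L
  /-- the first point of the curve is on the unit circle, and the curve is orthogonal to it
  (then the boundary of the hypersurface has two components), or it is on one of the walls of the
  Weyl chamber, and the curve is orthogonal to this wall (then there is one component) -/
  initial : (z 0 < y 0 ∧ y 0 < x 0 ∧ x 0 ^ 2 + y 0 ^ 2 + z 0 ^ 2 = 1 ∧ deriv x 0 = -x 0 ∧
      deriv y 0 = -y 0) ∨ (y 0 < x 0 ∧ z 0 = y 0 ∧ deriv x 0 = 0) ∨
    (z 0 < y 0 ∧ y 0 = x 0 ∧ deriv z 0 = 0)

section energy

variable (F : Type) [NormedRing F] [InnerProductSpace ℝ F] [StarRing F] [CompleteSpace F] [IsDA F]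

omit [CompleteSpace F] in
theorem star_smul_real (r : ℝ) (a : F) : star (r • a) = r • star a := by
  rw [star_eq F (r • a), star_eq F a, real_inner_smul_left, smul_sub, smul_smul]
  congr 2
  ring

/-- The space of the Hermitian matrices of trace zero. -/
def herm0 : Submodule ℝ (Mat3 F) where
  carrier := {X | (∀ i j, X (j, i) = star (X (i, j))) ∧ ∑ i, X (i, i) = 0}
  add_mem' := by
    intro X Y hX hY
    refine ⟨fun i j => ?_, ?_⟩
    · simp only [PiLp.add_apply, hX.1 i j, hY.1 i j, star_add]
    · simp only [PiLp.add_apply, Finset.sum_add_distrib, hX.2, hY.2, add_zero]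
  zero_mem' := ⟨fun i j => by simp, by simp⟩
  smul_mem' := by
    intro r X hX
    refine ⟨fun i j => ?_, ?_⟩
    · simp only [PiLp.smul_apply, hX.1 i j, star_smul_real F]
    · simp only [PiLp.smul_apply, ← Finset.smul_sum, hX.2, smul_zero]

instance : FiniteDimensional ℝ (Mat3 F) :=
  inferInstanceAs (FiniteDimensional ℝ (PiLp 2 (fun _ : Fin 3 × Fin 3 => F)))

/-- The average over the matrices `A` in `U(3)` of a function of the three columns of `A`. -/
noncomputable def avg (f : Vec F 3 → Vec F 3 → Vec F 3 → ℝ) : ℝ :=
  ∫ A : Un F 3, f (act A (bv F 3 0)) (act A (bv F 3 1)) (act A (bv F 3 2)) ∂hm F 3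

namespace Profile

variable {F} {m : ℕ} (P : Profile m)

/-- The point of the hypersurface: the matrix with the eigenvectors `u`, `v`, `w`. -/
noncomputable def pt (s : ℝ) (u v w : Vec F 3) : Mat3 F :=
  P.x s • prj u + P.y s • prj v + P.z s • prj w

/-- The unit normal at the point `pt s u v w`. -/
noncomputable def nu (s : ℝ) (u v w : Vec F 3) : Mat3 F :=
  ((deriv P.y s - deriv P.z s) / √3) • prj u + ((deriv P.z s - deriv P.x s) / √3) • prj v
    + ((deriv P.x s - deriv P.y s) / √3) • prj w

/-- The density of the area of the hypersurface. -/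
noncomputable def w (s : ℝ) : ℝ := ((P.x s - P.y s) * (P.x s - P.z s) * (P.y s - P.z s)) ^ m

/-- The square of the norm of the tangential gradient of `f`: the gradient of the restriction of
`f` to the space of the Hermitian matrices of trace zero, minus its normal component. -/
noncomputable def gradSq (f : Mat3 F → ℝ) (s : ℝ) (u v w : Vec F 3) : ℝ :=
  ‖(herm0 F).starProjection (gradient f (P.pt s u v w))‖ ^ 2
    - (inner ℝ (gradient f (P.pt s u v w)) (P.nu s u v w)) ^ 2

/-- The Dirichlet energy of `f` on the hypersurface. -/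
noncomputable def energy (f : Mat3 F → ℝ) : ℝ :=
  ∫ s in (0 : ℝ)..P.L, avg F (P.gradSq f s) * P.w s

/-- The integral of `f` over the boundary of the hypersurface (if the first point of the profile
curve is on a wall, then `w 0 = 0` and there is only one boundary component). -/
noncomputable def bdry (f : Mat3 F → ℝ) : ℝ :=
  avg F (fun u v w => f (P.pt P.L u v w)) * P.w P.L + avg F (fun u v w => f (P.pt 0 u v w)) * P.w 0

variable (F)

/-- The set of the Rayleigh quotients of the Steklov problem: its infimum is the first nonzero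
Steklov eigenvalue. -/
def rayleigh : Set ℝ :=
  {R | ∃ f : Mat3 F → ℝ, ContDiff ℝ 1 f ∧ P.bdry f = 0 ∧ P.bdry (fun X => f X ^ 2) ≠ 0 ∧
    R = P.energy f / P.bdry (fun X => f X ^ 2)}

end Profile

/-- The first nonzero Steklov eigenvalue is one for all embedded invariant free boundary minimal
hypersurfaces of the unit ball of the space of the Hermitian `3 × 3` matrices of trace zero. -/
def SteklovOne : Prop :=
  ∀ P : Profile (Module.finrank ℝ F), IsLeast (P.rayleigh F) 1

end energy

end Pool.Agent.Work.MP_408f4b_gt.A2
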