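import Pool.Agent.Work.MP_408f4b_gt.Q.Stmts3
import Pool.Agent.Work.MP_408f4b_gt.A2.Base

set_option autoImplicit false

/-!
# Abstract frames of three vectors

`V` is a real Euclidean space of dimension `3 (e + 1)` with the frames `Frm` of block `Q`
(right multiplications `J q`, `q ∈ Fin (e + 1)`, and a compact group acting by isometries), and the
group is transitive on the orthonormal triples. `M` is a real Euclidean space with a symmetric
bilinear map `B : V → V → M`, `B v w = (v w* + w v*) / 2`.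
-/

namespace Pool.Agent.Work.MP_408f4b_gt.A2

open MeasureTheory Set Filter Topology Pool.Agent.Work.MP_408f4b_gt.Q

/-- Frames of three vectors in `V`. -/
structure Fr3 (V : Type) [NormedAddCommGroup V] [InnerProductSpace ℝ V] [CompleteSpace V]
    (e : ℕ) where
  fr : Frm V (3 * (e + 1)) e
  /-- the third vector of the base frame -/
  c : V
  hac : fr.Pair fr.a c
  hbc : fr.Pair fr.b c
  inv3 : ∀ u v w : V, fr.Pair u v → fr.Pair u w → fr.Pair v w →
    ∀ F : V → V → V → ℝ, Continuous (fun z : V × V × V => F z.1 z.2.1 z.2.2) →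
      ∫ g, F (fr.A g u) (fr.A g v) (fr.A g w) ∂fr.μ =
        ∫ g, F (fr.A g fr.a) (fr.A g fr.b) (fr.A g c) ∂fr.μ

section one

variable {V : Type} [NormedAddCommGroup V] [InnerProductSpace ℝ V] [CompleteSpace V] {e : ℕ}
  (Ψ : Fr3 V e)

/-- Orthonormal triples. -/
def Fr3.Tri (u v w : V) : Prop := Ψ.fr.Pair u v ∧ Ψ.fr.Pair u w ∧ Ψ.fr.Pair v w

/-- The average of a function of the orthonormal triples. -/
noncomputable def Fr3.av (F : V → V → V → ℝ) : ℝ :=
  ∫ g, F (Ψ.fr.A g Ψ.fr.a) (Ψ.fr.A g Ψ.fr.b) (Ψ.fr.A g Ψ.c) ∂Ψ.fr.μ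

end one

/-- The symmetric bilinear map `B v w = (v w* + w v*) / 2` into the space `M` of the matrices;
`pr` is the projection onto the space of the Hermitian matrices of trace zero. -/
structure Hrm {V : Type} [NormedAddCommGroup V] [InnerProductSpace ℝ V] [CompleteSpace V] {e : ℕ}
    (Ψ : Fr3 V e) (M : Type) [NormedAddCommGroup M] [InnerProductSpace ℝ M] where
  B : V → V → M
  add_l : ∀ v v' w, B (v + v') w = B v w + B v' w
  smul_l : ∀ (r : ℝ) v w, B (r • v) w = r • B v w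
  symm : ∀ v w, B v w = B w v
  jj : ∀ (p q : Fin (e + 1)) (v : V), B (Ψ.fr.J p v) (Ψ.fr.J q v) = if p = q then B v v else 0
  /-- the unit matrix -/
  one : M
  sum : ∀ u v w, Ψ.Tri u v w → B u u + B v v + B w w = one
  inn : ∀ v w, (inner ℝ (B v v) (B w w) : ℝ) = ∑ q, (inner ℝ v (Ψ.fr.J q w)) ^ 2
  pr : M →L[ℝ] M
  pars : ∀ u v w, Ψ.Tri u v w → ∀ Y : M, ‖pr Y‖ ^ 2 =
    (inner ℝ Y (B u u)) ^ 2 + (inner ℝ Y (B v v)) ^ 2 + (inner ℝ Y (B w w)) ^ 2
      - (inner ℝ Y (B u u) + inner ℝ Y (B v v) + inner ℝ Y (B w w)) ^ 2 / 3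
      + 2 * ∑ q, ((inner ℝ Y (B u (Ψ.fr.J q v))) ^ 2 + (inner ℝ Y (B u (Ψ.fr.J q w))) ^ 2
        + (inner ℝ Y (B v (Ψ.fr.J q w))) ^ 2)

/-! ### Functions of three matrices -/

section perm

variable {M : Type}

/-- Exchange of the last two arguments. -/
def s23 (Θ : M → M → M → ℝ) (X Y Z : M) : ℝ := Θ X Z Y

/-- Exchange of the first two arguments. -/
def s12 (Θ : M → M → M → ℝ) (X Y Z : M) : ℝ := Θ Y X Z

/-- Exchange of the first and the last argument. -/
def s13 (Θ : M → M → M → ℝ) (X Y Z : M) : ℝ := Θ Z Y X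

/-- The two components of the part of standard type, in the positive frame. -/
noncomputable def pX (Θ : M → M → M → ℝ) (X Y Z : M) : ℝ :=
  ((Θ X Y Z + Θ X Z Y) / 3 - (Θ Y Z X + Θ Z Y X) / 3) / 2 +
    ((Θ X Y Z + Θ X Z Y) / 3 - 2 * ((Θ Y X Z + Θ Z X Y) / 3) + (Θ Y Z X + Θ Z Y X) / 3) / (2 * √3)

noncomputable def pY (Θ : M → M → M → ℝ) (X Y Z : M) : ℝ :=
  ((Θ X Y Z + Θ X Z Y) / 3 - (Θ Y Z X + Θ Z Y X) / 3) / 2 -
    ((Θ X Y Z + Θ X Z Y) / 3 - 2 * ((Θ Y X Z + Θ Z X Y) / 3) + (Θ Y Z X + Θ Z Y X) / 3) / (2 * √3)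

/-- The antisymmetric part. -/
noncomputable def pN (Θ : M → M → M → ℝ) (X Y Z : M) : ℝ :=
  (Θ X Y Z + Θ Y Z X + Θ Z X Y - Θ X Z Y - Θ Y X Z - Θ Z Y X) / 6

/-- The symmetric part. -/
noncomputable def pS (Θ : M → M → M → ℝ) (X Y Z : M) : ℝ :=
  (Θ X Y Z + Θ Y Z X + Θ Z X Y + Θ X Z Y + Θ Y X Z + Θ Z Y X) / 6

end perm

section two

variable {M : Type} [NormedAddCommGroup M] [InnerProductSpace ℝ M] [CompleteSpace M]

/-- Joint continuity. -/
def Co3 (Θ : M → M → M → ℝ) : Prop := Continuous (fun z : M × M × M => Θ z.1 z.2.1 z.2.2)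

/-- Joint continuous differentiability. -/
def Ci3 (Θ : M → M → M → ℝ) : Prop := ContDiff ℝ 1 (fun z : M × M × M => Θ z.1 z.2.1 z.2.2)

/-- Partial gradients. -/
noncomputable def pg2 (Θ : M → M → M → ℝ) (X Y Z : M) : M := gradient (fun Y' => Θ X Y' Z) Y

noncomputable def pg3 (Θ : M → M → M → ℝ) (X Y Z : M) : M := gradient (fun Z' => Θ X Y Z') Z

/-- The value of `f` at the matrix `x X + y Y + z Z`. -/
def Uf (f : M → ℝ) (x y z : ℝ) (X Y Z : M) : ℝ := f (x • X + y • Y + z • Z)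

/-- The derivative of `f` along the curve with velocity `(x', y', z')`. -/
noncomputable def Vf (f : M → ℝ) (x y z x' y' z' : ℝ) (X Y Z : M) : ℝ :=
  inner ℝ (gradient f (x • X + y • Y + z • Z)) (x' • X + y' • Y + z' • Z)

variable {V : Type} [NormedAddCommGroup V] [InnerProductSpace ℝ V] [CompleteSpace V] {e : ℕ}
  {Ψ : Fr3 V e} (T : Hrm Ψ M)

/-- A function of three matrices as a function of a triple of vectors. -/
def Hrm.ev (Θ : M → M → M → ℝ) (u v w : V) : ℝ := Θ (T.B u u) (T.B v v) (T.B w w)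

/-- Its average. -/
noncomputable def Hrm.Ex (Θ : M → M → M → ℝ) : ℝ := Ψ.av (T.ev Θ)

/-- The derivative with respect to the rotation `q` of the last two vectors. -/
noncomputable def Hrm.dd (q : Fin (e + 1)) (Θ : M → M → M → ℝ) (u v w : V) : ℝ :=
  2 * inner ℝ (pg2 Θ (T.B u u) (T.B v v) (T.B w w) - pg3 Θ (T.B u u) (T.B v v) (T.B w w))
    (T.B v (Ψ.fr.J q w))

/-- The energy with respect to the rotations of the last two vectors (as a bilinear form). -/
noncomputable def Hrm.Eb (Θ Ξ : M → M → M → ℝ) : ℝ :=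
  Ψ.av (fun u v w => ∑ q, T.dd q Θ u v w * T.dd q Ξ u v w)

/-- The energy on the orbit; `a = x - y`, `b = x - z`, `c = y - z`. -/
noncomputable def Hrm.Orb (a b c : ℝ) (Θ : M → M → M → ℝ) : ℝ :=
  T.Eb (s13 Θ) (s13 Θ) / (2 * a ^ 2) + T.Eb (s12 Θ) (s12 Θ) / (2 * b ^ 2) + T.Eb Θ Θ / (2 * c ^ 2)

/-- The parametrisation of the matrices with the eigenspace `u` by the sphere `S^(e+1)`. -/
noncomputable def Hrm.sg (v w : V) (c : E (e + 2)) : M :=
  c 0 • (T.B v v - T.B w w) + (2 : ℝ) • ∑ q : Fin (e + 1), c q.succ • T.B v (Ψ.fr.J q w)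

/-- The value at the point `c` of the sphere. -/
noncomputable def Hrm.at' (Θ : M → M → M → ℝ) (u v w : V) (c : E (e + 2)) : ℝ :=
  Θ (T.B u u) ((1 / 2 : ℝ) • (T.B v v + T.B w w + T.sg v w c))
    ((1 / 2 : ℝ) • (T.B v v + T.B w w - T.sg v w c))

/-- The average over the sphere. -/
noncomputable def Hrm.CC (Θ : M → M → M → ℝ) (u v w : V) : ℝ :=
  ((sig (e + 2)).real univ)⁻¹ * ∫ c : Sph (e + 2), T.at' Θ u v w c ∂sig (e + 2)

/-- The function as a function of the first two vectors of the triple. -/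
noncomputable def Hrm.pf (Θ : M → M → M → ℝ) (u v : V) : ℝ :=
  Θ (T.B u u) (T.B v v) (T.one - T.B u u - T.B v v)

/-- The point with the eigenvalues `x`, `y`, `z`. -/
noncomputable def Hrm.X (x y z : ℝ) (u v w : V) : M :=
  x • T.B u u + y • T.B v v + z • T.B w w

/-- The square of the tangential gradient of `f`. -/
noncomputable def Hrm.gS (f : M → ℝ) (x y z x' y' z' : ℝ) (u v w : V) : ℝ :=
  ‖T.pr (gradient f (T.X x y z u v w))‖ ^ 2 - (inner ℝ (gradient f (T.X x y z u v w))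
    (T.X ((y' - z') / √3) ((z' - x') / √3) ((x' - y') / √3) u v w)) ^ 2

end two

/-! ### The profile curve in the positive frame -/

/-- The eigenvalues in terms of the coordinates `a`, `b` of the positive frame. -/
noncomputable def e1 (a b : ℝ) : ℝ := (a + b) / 2 + (a - b) / (2 * √3)

noncomputable def e2 (a b : ℝ) : ℝ := (b - a) / √3

noncomputable def e3 (a b : ℝ) : ℝ := -(a + b) / 2 + (a - b) / (2 * √3)

/-- The differences of neighbouring eigenvalues. -/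
noncomputable def d1 (a b : ℝ) : ℝ := ((1 + √3) * a + (1 - √3) * b) / 2

noncomputable def d3 (a b : ℝ) : ℝ := ((1 - √3) * a + (1 + √3) * b) / 2

/-- the weight -/
noncomputable def w3 (m : ℕ) (x y : ℝ → ℝ) (s : ℝ) : ℝ :=
  (d1 (x s) (y s) * (x s + y s) * d3 (x s) (y s)) ^ m

/-- the geodesic curvature of the profile -/
noncomputable def k3 (m : ℕ) (x y : ℝ → ℝ) (s : ℝ) : ℝ :=
  m * ((deriv x s - deriv y s) / (x s + y s) +
    ((1 - √3) * deriv x s - (1 + √3) * deriv y s) / (2 * d1 (x s) (y s)) +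
    ((1 + √3) * deriv x s - (1 - √3) * deriv y s) / (2 * d3 (x s) (y s)))

/-- A piece of a profile curve in the open chamber. -/
def Crv3 (m : ℕ) (α β : ℝ) (x y : ℝ → ℝ) : Prop := ContDiff ℝ 2 x ∧ ContDiff ℝ 2 y ∧
  ∀ s ∈ Icc α β, 0 < d1 (x s) (y s) ∧ 0 < d3 (x s) (y s) ∧ deriv x s ^ 2 + deriv y s ^ 2 = 1 ∧
    deriv x s * deriv (deriv y) s - deriv y s * deriv (deriv x) s = k3 m x y s

/-- A chord: the data of a profile with two boundary components. -/
structure Chd3 (m : ℕ) (L : ℝ) (x y : ℝ → ℝ) : Prop where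
  L_pos : 0 < L
  curve : Crv3 m 0 L x y
  injOn : InjOn (fun s => (x s, y s)) (Icc 0 L)
  final : x L ^ 2 + y L ^ 2 = 1 ∧ deriv x L = x L ∧ deriv y L = y L
  initial : x 0 ^ 2 + y 0 ^ 2 = 1 ∧ deriv x 0 = -x 0 ∧ deriv y 0 = -y 0

/-- the function whose zero set is the minimal cone -/
noncomputable def Q3 (x y : ℝ → ℝ) (s : ℝ) : ℝ :=
  (x s - y s) * (x s ^ 2 + 4 * x s * y s + y s ^ 2)

/-- The coefficients of the potential of the cooperative system. -/
noncomputable def p11 (m : ℕ) (x y : ℝ → ℝ) (s : ℝ) : ℝ :=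
  m * (1 / (x s + y s) ^ 2 + (1 + √3 / 2) / d1 (x s) (y s) ^ 2 + (1 - √3 / 2) / d3 (x s) (y s) ^ 2)

noncomputable def p22 (m : ℕ) (x y : ℝ → ℝ) (s : ℝ) : ℝ :=
  m * (1 / (x s + y s) ^ 2 + (1 - √3 / 2) / d1 (x s) (y s) ^ 2 + (1 + √3 / 2) / d3 (x s) (y s) ^ 2)

noncomputable def p12 (m : ℕ) (x y : ℝ → ℝ) (s : ℝ) : ℝ :=
  m * (1 / (x s + y s) ^ 2 - (1 / d1 (x s) (y s) ^ 2 + 1 / d3 (x s) (y s) ^ 2) / 2)

end Pool.Agent.Work.MP_408f4b_gt.A2
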