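import Pool.Agent.Work.MP_408f4b_gt.A2.QF
import Pool.Agent.Work.MP_408f4b_gt.A2.I.Eqn
import Pool.Agent.Work.MP_408f4b_gt.A2.I.Arm
import Pool.Agent.Work.MP_408f4b_gt.A2.I.Near
import Pool.Agent.Work.MP_408f4b_gt.A2.I.Cross
import Pool.Agent.Work.MP_408f4b_gt.A2.I.Super
import Pool.Agent.Work.MP_408f4b_gt.A2.I.Inv
import Pool.Agent.Work.MP_408f4b_gt.A2.I.SecV
import Pool.Agent.Work.MP_408f4b_gt.A2.I.SecRP
import Pool.Agent.Work.MP_408f4b_gt.A2.I.Tri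
import Pool.Agent.Work.MP_408f4b_gt.A2.I.Av
import Pool.Agent.Work.MP_408f4b_gt.A2.I.Int
import Pool.Agent.Work.MP_408f4b_gt.A2.I.Path
import Pool.Agent.Work.MP_408f4b_gt.A2.I.B2
import Pool.Agent.Work.MP_408f4b_gt.A2.I.B
import Pool.Agent.Work.MP_408f4b_gt.A2.I.Rot
import Pool.Agent.Work.MP_408f4b_gt.A2.I.KF
import Pool.Agent.Work.MP_408f4b_gt.A2.I.N
import Pool.Agent.Work.MP_408f4b_gt.A2.I.Eb
import Pool.Agent.Work.MP_408f4b_gt.A2.I.Fib
import Pool.Agent.Work.MP_408f4b_gt.A2.I.CP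
import Pool.Agent.Work.MP_408f4b_gt.A2.I.Sym
import Pool.Agent.Work.MP_408f4b_gt.A2.I.Par
import Pool.Agent.Work.MP_408f4b_gt.A2.I.Fix
import Pool.Agent.Work.MP_408f4b_gt.A2.I.Pt
import Pool.Agent.Work.MP_408f4b_gt.A2.I.Main
import Pool.Agent.Work.MP_408f4b_gt.A2.I.Bt
import Pool.Agent.Work.MP_408f4b_gt.A2.I.Two
import Pool.Agent.Work.MP_408f4b_gt.A2.I.One
import Pool.Agent.Work.MP_408f4b_gt.A2.I.Vol
import Pool.Agent.Work.MP_408f4b_gt.A2.I.Thm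
import Pool.Agent.Work.MP_408f4b_gt.A2.I.Lin
import Pool.Agent.Work.MP_408f4b_gt.A2.I.Fr
import Pool.Agent.Work.MP_408f4b_gt.A2.I.Hm
import Pool.Agent.Work.MP_408f4b_gt.A2.I.Stek

set_option autoImplicit false

/-!
# Assembly of block A2
-/

namespace Pool.Agent.Work.MP_408f4b_gt.A2

open Pool.Agent.Work.MP_408f4b_gt.Q

theorem stek_all : cStek := by
  obtain ⟨x_claimPoin, x_clRefl, x_clSec0, x_clPair, x_clSig, x_clAv, x_clUnif, x_clFib, x_clESph, x_clP2C, x_clP2F, x_clP2D, x_clInvF, x_clIn, x_clAct, x_clTrans, x_clHaar, x_clBas⟩ := Q.facts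
  have x_cEqn : cEqn := A2.prfEqn 
  have x_cArm : cArm := A2.prfArm x_cEqn
  have x_cNear : cNear := A2.prfNear x_cEqn
  have x_cCross : cCross := A2.prfCross x_clRefl x_cArm x_cNear
  have x_cSuper : cSuper := A2.prfSuper x_cEqn
  have x_cInv : cInv := A2.prfInv x_cEqn x_cNear x_cCross x_cSuper
  have x_cSecV : cSecV := A2.prfSecV x_cEqn
  obtain ⟨x_cSecR, x_cSecP⟩ := A2.prfSecRP x_clSec0 x_cEqn
  have x_cTri : cTri := A2.prfTri x_clPair
  have x_cAv : cAv := A2.prfAv x_clPair x_clAv x_cTri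
  have x_cInt : cInt := A2.prfInt x_cAv
  have x_cPath : cPath := A2.prfPath x_clPair x_clSig x_clAv x_clUnif x_cTri
  have x_cB2 : cB2 := A2.prfB2 x_clAv x_clPair x_clFib x_clUnif x_clESph x_clP2C x_clP2F x_clP2D
  have x_cB : cB := A2.prfB x_clPair
  have x_cRot : cRot := A2.prfRot x_clPair x_cTri x_cB
  have x_cKF : cKF := A2.prfKF x_clPair x_cTri x_cB x_cRot
  have x_cN : cN := A2.prfN x_clPair x_cTri x_cB
  have x_cEb : cEb := A2.prfEb x_clPair x_cTri x_cAv x_cB x_cN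
  have x_cFib : cFib := A2.prfFib x_claimPoin x_clESph x_clPair x_cTri x_cAv x_cB x_cRot x_cKF x_cN x_cEb
  have x_cCP : cCP := A2.prfCP x_clPair x_clSig x_clP2F x_cTri x_cAv x_cB x_cRot x_cKF x_cN x_cFib
  have x_cSym : cSym := A2.prfSym x_clPair x_clAv x_clP2F x_cTri x_cAv x_cPath x_cB2 x_cB x_cN x_cEb x_cFib x_cCP
  have x_cPar : cPar := A2.prfPar x_cAv x_cB
  have x_cFix : cFix := A2.prfFix x_cAv x_cB x_cN x_cEb x_cFib x_cPar x_cSym
  have x_cPt : cPt := A2.prfPt x_clPair x_cTri x_cAv x_cB x_cN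
  have x_cMain : cMain := A2.prfMain x_cEqn x_cSecV x_cSecR x_cSecP x_cAv x_cInt x_cB x_cPar x_cFix x_cPt
  have x_cBt : cBt := A2.prfBt x_cPar x_cPt
  have x_cTwo : cTwo := A2.prfTwo x_clInvF x_cEqn x_cInv x_cAv x_cInt x_cB x_cPt x_cMain x_cBt
  have x_cOne : cOne := A2.prfOne x_cEqn x_cAv x_cInt x_cB x_cPar x_cPt x_cMain x_cBt
  have x_cVol : cVol := A2.prfVol x_cEqn
  have x_cThm : cThm := A2.prfThm x_cB x_cPt x_cVol x_cTwo x_cOne
  have x_cLin : cLin := A2.prfLin x_clPair x_cTri x_cAv x_cB x_cPt x_cVol x_cThm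
  have x_cFr : cFr := A2.prfFr x_clIn x_clAct x_clTrans x_clHaar
  have x_cHm : cHm := A2.prfHm x_clIn x_clAct x_clPair
  have x_cStek : cStek := A2.prfStek x_clBas x_cB x_cPt x_cThm x_cLin x_cFr x_cHm
  exact x_cStek

end Pool.Agent.Work.MP_408f4b_gt.A2
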