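import Pool.Agent.Work.MP_408f4b_gt.I.Poin
import Pool.Agent.Work.MP_408f4b_gt.I.GP
import Pool.Agent.Work.MP_408f4b_gt.I.G1
import Pool.Agent.Work.MP_408f4b_gt.I.Upd
import Pool.Agent.Work.MP_408f4b_gt.I.ES
import Pool.Agent.Work.MP_408f4b_gt.I.Polar
import Pool.Agent.Work.MP_408f4b_gt.Q.I.Refl
import Pool.Agent.Work.MP_408f4b_gt.Q.I.InvF
import Pool.Agent.Work.MP_408f4b_gt.Q.I.Sec0
import Pool.Agent.Work.MP_408f4b_gt.Q.I.E1
import Pool.Agent.Work.MP_408f4b_gt.Q.I.Cube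
import Pool.Agent.Work.MP_408f4b_gt.Q.I.ENa
import Pool.Agent.Work.MP_408f4b_gt.Q.I.ENb
import Pool.Agent.Work.MP_408f4b_gt.Q.I.EN
import Pool.Agent.Work.MP_408f4b_gt.Q.I.Polar
import Pool.Agent.Work.MP_408f4b_gt.Q.I.ESph
import Pool.Agent.Work.MP_408f4b_gt.Q.I.Sig
import Pool.Agent.Work.MP_408f4b_gt.Q.I.Pair
import Pool.Agent.Work.MP_408f4b_gt.Q.I.Av
import Pool.Agent.Work.MP_408f4b_gt.Q.I.Unif
import Pool.Agent.Work.MP_408f4b_gt.Q.I.Fib
import Pool.Agent.Work.MP_408f4b_gt.Q.I.Psi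
import Pool.Agent.Work.MP_408f4b_gt.Q.I.P2C
import Pool.Agent.Work.MP_408f4b_gt.Q.I.P2F
import Pool.Agent.Work.MP_408f4b_gt.Q.I.P2E
import Pool.Agent.Work.MP_408f4b_gt.Q.I.P2D
import Pool.Agent.Work.MP_408f4b_gt.Q.I.In
import Pool.Agent.Work.MP_408f4b_gt.Q.I.Bas
import Pool.Agent.Work.MP_408f4b_gt.Q.I.Act
import Pool.Agent.Work.MP_408f4b_gt.Q.I.Trans
import Pool.Agent.Work.MP_408f4b_gt.Q.I.Haar

set_option autoImplicit false

/-!
# The facts of block Q which are used in block A2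
-/

namespace Pool.Agent.Work.MP_408f4b_gt.Q

theorem facts : claimPoin ∧ clRefl ∧ clSec0 ∧ clPair ∧ clSig ∧ clAv ∧ clUnif ∧
    clFib ∧ clESph ∧ clP2C ∧ clP2F ∧
     clP2D ∧ clInvF ∧ clIn ∧ clAct ∧ clTrans ∧ clHaar ∧ clBas := by
  have x_claimPoin : claimPoin :=
    Pool.Agent.Work.MP_408f4b_gt.prfPoin (prfGP prfG1 prfUpd prfES)
      Pool.Agent.Work.MP_408f4b_gt.prfPolar
  have x_clRefl : clRefl := prfRefl
  have x_clInvF : clInvF := prfInvF
  have x_clSec0 : clSec0 := prfSec0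
  have x_clE1 : clE1 := prfE1
  have x_clCube : clCube := prfCube
  have x_clENa : clENa := prfENa x_clE1 x_clCube
  have x_clENb : clENb := prfENb x_clE1
  have x_clEN : clEN := prfEN x_clE1 x_clENa x_clENb
  have x_clPolar : clPolar := prfPolar
  have x_clESph : clESph := prfESph x_clEN x_clPolar
  have x_clSig : clSig := prfSig
  have x_clPair : clPair := prfPair
  have x_clAv : clAv := prfAv
  have x_clUnif : clUnif := prfUnif x_clAv x_clPair x_clSig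
  have x_clFib : clFib := prfFib x_clAv x_clPair
  have x_clPsi : clPsi := prfPsi
  have x_clP2C : clP2C := prfP2C x_clPsi
  have x_clP2F : clP2F := prfP2F x_clAv x_clPair x_clFib x_clPolar
  have x_clP2E : clP2E := prfP2E x_clPair x_clPsi x_clP2C x_clSig
  have x_clP2D : clP2D := prfP2D x_clPair x_clSig x_clP2E
  have x_clIn : clIn := prfIn
  have x_clBas : clBas := prfBas
  have x_clAct : clAct := prfAct x_clIn
  have x_clTrans : clTrans := prfTrans x_clIn x_clAct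
  have x_clHaar : clHaar := prfHaar
  exact ⟨x_claimPoin, x_clRefl, x_clSec0, x_clPair, x_clSig, x_clAv, x_clUnif, x_clFib, x_clESph, x_clP2C, x_clP2F, x_clP2D, x_clInvF, x_clIn, x_clAct, x_clTrans, x_clHaar, x_clBas⟩

end Pool.Agent.Work.MP_408f4b_gt.Q
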