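import Pool.Agent.Work.MP_408f4b_gt.A2.Abs

set_option autoImplicit false

/-!
# Statements of the items of block A2

Notation: `m = e + 1` is the real dimension of the division algebra.
-/

namespace Pool.Agent.Work.MP_408f4b_gt.A2

open MeasureTheory Set Filter Topology Pool.Agent.Work.MP_408f4b_gt.Q

/-! ## Part 1: the profile curve

`x`, `y` are the coordinates in the positive frame; the eigenvalues are `e1 x y`, `e2 x y`,
`e3 x y`; the differences are `d1 x y`, `x + y`, `d3 x y`, and `d1 + d3 = x + y`. -/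

/-- The equations of the profile in the form in which they are used.

Proof. As `Q.I.Eqn`. `d1, d3 > 0` give `x, y > 0`: `x = ((1+√3) d1 + (√3-1) d3)/(2√3)`,
`y = ((√3-1) d1 + (1+√3) d3)/(2√3)`. From `x'^2 + y'^2 = 1` we get `x' x'' + y' y'' = 0` (on the
interior of the interval, and at its ends by continuity, both sides being continuous), with the
equation for `x' y'' - y' x''` this gives `x'' = -k y'`, `y'' = k x'`. The logarithmic derivative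
of `w3` is `m (d1'/d1 + (x'+y')/(x+y) + d3'/d3)`, and `w' x' - w k y' = w ∂_x log w` etc. -/
def cEqn : Prop := ∀ (m : ℕ) (α β : ℝ) (x y : ℝ → ℝ), 1 ≤ m → α < β →
  Crv3 m α β x y → ∀ s ∈ Icc α β,
  0 < x s ∧ 0 < y s ∧ 0 < w3 m x y s ∧
  HasDerivAt (deriv x) (-(k3 m x y s) * deriv y s) s ∧
  HasDerivAt (deriv y) (k3 m x y s * deriv x s) s ∧
  HasDerivAt (w3 m x y) (w3 m x y s * (m * (d1 (deriv x s) (deriv y s) / d1 (x s) (y s) +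
    (deriv x s + deriv y s) / (x s + y s) + d3 (deriv x s) (deriv y s) / d3 (x s) (y s)))) s ∧
  HasDerivAt (fun t => w3 m x y t * deriv x t)
    (w3 m x y s * (m * (1 / (x s + y s) + (1 + √3) / (2 * d1 (x s) (y s)) +
      (1 - √3) / (2 * d3 (x s) (y s))))) s ∧
  HasDerivAt (fun t => w3 m x y t * deriv y t)
    (w3 m x y s * (m * (1 / (x s + y s) + (1 - √3) / (2 * d1 (x s) (y s)) +
      (1 + √3) / (2 * d3 (x s) (y s))))) s ∧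
  HasDerivAt (fun t => w3 m x y t * (x t * deriv x t + y t * deriv y t))
    ((3 * (m : ℝ) + 1) * w3 m x y s) s ∧
  HasDerivAt (fun t => x t * deriv y t - y t * deriv x t)
    (k3 m x y s * (x s * deriv x s + y s * deriv y s)) s

/-- Half a profile curve, from the nearest point to the origin on, gives an arm.

Proof. As `Q.I.Arm`, with the factor `3/2` instead of `2`: the polar angle `ϑ = arctan (y/x)` is in
`(π/12, 5π/12)`, the angle of the arm is `φ = (3/2) (ϑ - π/12) = (3/2) ϑ - π/8`, the time is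
`t = (3/2) log (r/r(0))`, and `ψ` is the angle between the position vector and the tangent:
`cos ψ = (x x' + y y')/r`, `sin ψ = (x y' - y x')/r`. Then `dϑ/ds = sin ψ / r`,
`dr/ds = cos ψ`, hence `dφ/dt = tan ψ`; `dψ/ds = k3 - sin ψ / r` (the direction angle of the
tangent is `ϑ + ψ`), `dψ/dt = (2/3) r (k3 - sin ψ/r)/cos ψ`. With `ν = (-y', x')`,
`r k3 = m (3 cot (3(ϑ - π/12)) cos ψ - 3 sin ψ)`, because `log w3 = m (3 log r + log sin (3 (ϑ -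
π/12))) + const`. So `dψ/dt = 2 m cot (2 φ) - (2/3)(3 m + 1) tan ψ`, and
`kk (m+1) (m+1) u = m (cot u - tan u) = 2 m cot (2u)`.
Facts for `sin (3 (ϑ - π/12))`: `r^3 sin (3 (ϑ - π/12)) = (x+y)(4 x y - x^2 - y^2)/√2`
`= 2 d1 d3 (x+y)/√2`. -/
def cArm : Prop := ∀ (m : ℕ) (ℓ ε : ℝ) (x y : ℝ → ℝ), 1 ≤ m → 0 < ℓ →
  (ε = 1 ∨ ε = -1) → Crv3 m 0 ℓ x y → x 0 * deriv x 0 + y 0 * deriv y 0 = 0 →
  (∀ s ∈ Ioc 0 ℓ, 0 < x s * deriv x s + y s * deriv y s) →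
  0 < ε * (x 0 * deriv y 0 - y 0 * deriv x 0) →
  ∃ φ ψ : ℝ → ℝ, 0 < Real.log (rad x y ℓ / rad x y 0) ∧
    Arm (kk (m + 1) (m + 1)) (2 * (m : ℝ) + 2 / 3) (3 / 2 * Real.log (rad x y ℓ / rad x y 0)) φ ψ ∧
    ψ 0 = ε * (Real.pi / 2) ∧ ∀ s ∈ Icc 0 ℓ,
      Real.log (rad x y s / rad x y 0) ∈ Icc 0 (Real.log (rad x y ℓ / rad x y 0)) ∧
      φ (3 / 2 * Real.log (rad x y s / rad x y 0)) =
        3 / 2 * Real.arctan (y s / x s) - Real.pi / 8 ∧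
      rad x y s * Real.sin (ψ (3 / 2 * Real.log (rad x y s / rad x y 0))) =
        x s * deriv y s - y s * deriv x s

/-- The nearest point to the origin is unique; a piece of a curve and a chord can be reversed.

Proof. As `Q.I.Near` and `Q.I.Refl`: `w (x x' + y y')` has the derivative `(3m+1) w > 0`, it is
negative at `0` and positive at `L`; at its zero the position vector is orthogonal to the unit
tangent, which gives the last equation. -/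
def cNear : Prop := (∀ (m : ℕ) (L : ℝ) (x y : ℝ → ℝ), 1 ≤ m → Chd3 m L x y →
  ∃ s₀ ∈ Ioo 0 L, x s₀ * deriv x s₀ + y s₀ * deriv y s₀ = 0 ∧
    (∀ s ∈ Ico 0 s₀, x s * deriv x s + y s * deriv y s < 0) ∧
    (∀ s ∈ Ioc s₀ L, 0 < x s * deriv x s + y s * deriv y s) ∧
    (x s₀ * deriv y s₀ - y s₀ * deriv x s₀) ^ 2 = x s₀ ^ 2 + y s₀ ^ 2) ∧
  ∀ (m : ℕ) (L : ℝ) (x y : ℝ → ℝ), Chd3 m L x y →
    Chd3 m L (fun s => x (L - s)) (fun s => y (L - s))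

/-- A chord meets the cone at most once, and not at its ends.

Proof. As `Q.I.Cross` (the theorems `ac_low`, `ac_all` there can be cited, with `p = q = m + 1`,
`ang (m+1) (m+1) = arctan 1 = π/4`, `d = 2m + 2/3`): on the chamber `x^2 + 4xy + y^2 > 0`, so
`Q3 = 0` iff `x = y` iff `arctan (y/x) = π/4` iff `(3/2) arctan (y/x) - π/8 = π/4`. The halves of
the chord from the nearest point on are arms by `cArm` (one of them reversed), of the same length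
`(3/2) log (1/r₀)`, starting at the same point with `ψ = ± π/2` and ending with `ψ = 0`; they do not
meet because the chord is simple. -/
def cCross : Prop := ∀ (m : ℕ) (L : ℝ) (x y : ℝ → ℝ), 1 ≤ m → Chd3 m L x y →
  Q3 x y 0 ≠ 0 ∧ Q3 x y L ≠ 0 ∧
  ∀ s ∈ Icc 0 L, ∀ s' ∈ Icc 0 L, Q3 x y s = 0 → Q3 x y s' = 0 → s = s'

/-- The supersolution `|Q3|^(1/3)` on a piece on which `Q3` has the sign `ε` and which ends
orthogonally on the unit circle.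

Proof. As `Q.I.Super`. `C = Q3 = x³ + 3x²y - 3xy² - y³` satisfies `(w C')' = - w H`,
`H = D²C(ν, ν) = 6 (x + y) (y'² - x'²) - 12 (x - y) x' y'` with `ν = (-y', x')` (both `ΔC = 0` and
`⟨∇ log w, ∇C⟩ = 0`; use `cEqn` and `d1 d3 = (4xy - x² - y²)/2`), and for `g = (ε C)^(1/3)`,
`(w g')' = -(1/3) w (εC)^(-5/3) (C H + (2/3) C'²) = - 4 w (εC)^(-5/3) r² (x y' - y x')²
≤ 0`, `r² = x² + y²` (a polynomial identity modulo `x'² + y'² = 1`). Since `g` is homogeneous of degree one, `g'(β) = g(β)`. Hence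
`w(β) g(β) ≤ w(s) g'(s)` for `s ∈ (α, β]`, and `g(β) ≥ g(β) - g(α') = ∫ g' ≥ w(β) g(β) ∫ 1/w`
for `α' ↓ α`. -/
def cSuper : Prop := ∀ (m : ℕ) (α β ε : ℝ) (x y : ℝ → ℝ), 1 ≤ m → α < β →
  (ε = 1 ∨ ε = -1) → Crv3 m α β x y → (∀ s ∈ Ioc α β, 0 < ε * Q3 x y s) →
  deriv x β = x β → deriv y β = y β →
  (∀ s ∈ Ioc α β, w3 m x y β * (ε * Q3 x y β) ^ (1 / 3 : ℝ) ≤
    w3 m x y s * deriv (fun t => (ε * Q3 x y t) ^ (1 / 3 : ℝ)) s) ∧
  ∫ s in α..β, (w3 m x y s)⁻¹ ≤ (w3 m x y β)⁻¹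

/-- The inequality for a chord: the sector of the invariant functions.

Proof. As `Q.I.Inv`, from `cSuper`, `cCross`, `cNear`. -/
def cInv : Prop := ∀ (m : ℕ) (L : ℝ) (x y : ℝ → ℝ), 1 ≤ m → Chd3 m L x y →
  ∫ s in (0 : ℝ)..L, (w3 m x y s)⁻¹ ≤ (w3 m x y 0)⁻¹ + (w3 m x y L)⁻¹

/-- The sector of standard type: `(x, y)` is a positive solution of a cooperative system.

Proof. As `Q.I.SecV`: `(w x')' = w (p11 x + p12 y)`, `(w y')' = w (p12 x + p22 y)` (from `cEqn`: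
`p11 x + p12 y = m (1/(x+y) + (1+√3)/(2 d1) + (1-√3)/(2 d3))`, and the same with `√3` replaced by
`-√3`), and `p12 ≤ 0` because `0 < d1, d3 ≤ x + y`. Write `u = x v₁`, `v = y v₂`. -/
def cSecV : Prop := ∀ (m : ℕ) (α β : ℝ) (x y : ℝ → ℝ), 1 ≤ m → α < β → Crv3 m α β x y →
  Ineq2 α β (w3 m x y) (p11 m x y) (p12 m x y) (p22 m x y)
    (deriv x α / x α * w3 m x y α) (deriv y α / y α * w3 m x y α)
    (deriv x β / x β * w3 m x y β) (deriv y β / y β * w3 m x y β)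

/-- Supersolution `r`.

Proof. `Q.clSec0` with `ρ = rad x y` (compare `Q.I.Sec3`, `clSecR`):
`(w r')' = w (3m + 1 - r'^2)/r ≤ w (3m+1)/r`. -/
def cSecR : Prop := ∀ (m : ℕ) (α β : ℝ) (x y : ℝ → ℝ), 1 ≤ m → α < β → Crv3 m α β x y →
  Ineq1 α β (w3 m x y) (fun s => (3 * (m : ℝ) + 1) / (x s ^ 2 + y s ^ 2))
    ((x α * deriv x α + y α * deriv y α) / (x α ^ 2 + y α ^ 2) * w3 m x y α)
    ((x β * deriv x β + y β * deriv y β) / (x β ^ 2 + y β ^ 2) * w3 m x y β)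

/-- Supersolution `x + y`.

Proof. `Q.clSec0` with `ρ = x + y`:
`(w (x+y)')' = w m (2/(x+y) + 1/d1 + 1/d3) ≤ 2 m w (x+y) (1/d1² + 1/(x+y)² + 1/d3²)`, since
`0 < d1, d3 ≤ x + y`. -/
def cSecP : Prop := ∀ (m : ℕ) (α β : ℝ) (x y : ℝ → ℝ), 1 ≤ m → α < β → Crv3 m α β x y →
  Ineq1 α β (w3 m x y) (fun s => 2 * (m : ℝ) *
      (1 / d1 (x s) (y s) ^ 2 + 1 / (x s + y s) ^ 2 + 1 / d3 (x s) (y s) ^ 2))
    ((deriv x α + deriv y α) / (x α + y α) * w3 m x y α)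
    ((deriv x β + deriv y β) / (x β + y β) * w3 m x y β)

/-! ## Part 2: frames of three vectors -/

/-- Elementary facts on triples.

Proof. From `Q.clPair` (`A g` preserves `Pair`, `Js` is the adjoint of `J`). For the third vector:
the real span of all `J q u`, `J q v` has dimension at most `2 (e+1) < 3 (e+1) = dim V`
(`Φ.L : E n ≃ V`), so some unit `w` is orthogonal to all of them; `⟨u, J q w⟩ = ⟨Js q u, w⟩ = 0`. -/
def cTri : Prop := ∀ (V : Type) [NormedAddCommGroup V] [InnerProductSpace ℝ V] [CompleteSpace V]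
  (e : ℕ) (Ψ : Fr3 V e),
  Ψ.Tri Ψ.fr.a Ψ.fr.b Ψ.c ∧
  (∀ u v w, Ψ.Tri u v w → Ψ.Tri u w v ∧ Ψ.Tri v u w ∧ Ψ.Tri w v u ∧ Ψ.Tri v w u ∧ Ψ.Tri w u v) ∧
  (∀ u v w, Ψ.Tri u v w → ∀ g, Ψ.Tri (Ψ.fr.A g u) (Ψ.fr.A g v) (Ψ.fr.A g w)) ∧
  (∀ u v, Ψ.fr.Pair u v → ∃ w, Ψ.Tri u v w) ∧
  ∀ u v : V, ‖u‖ = 1 → ‖v‖ = 1 → ∃ w, Ψ.fr.Pair u w ∧ Ψ.fr.Pair v w

/-- Averages over the triples.

Proof. As `Q.I.Av`, `Q.I.Ev`. The second statement is `inv3`, the third one follows from it. -/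
def cAv : Prop := ∀ (V : Type) [NormedAddCommGroup V] [InnerProductSpace ℝ V] [CompleteSpace V]
  (e : ℕ) (Ψ : Fr3 V e),
  (∀ F : V → V → V → ℝ, Co3 F →
    Continuous (fun g : Ψ.fr.G => F (Ψ.fr.A g Ψ.fr.a) (Ψ.fr.A g Ψ.fr.b) (Ψ.fr.A g Ψ.c)) ∧
    (∀ u v w, Ψ.Tri u v w →
      ∫ g, F (Ψ.fr.A g u) (Ψ.fr.A g v) (Ψ.fr.A g w) ∂Ψ.fr.μ = Ψ.av F) ∧
    Ψ.av (s23 F) = Ψ.av F ∧ Ψ.av (s12 F) = Ψ.av F ∧ Ψ.av (s13 F) = Ψ.av F ∧
    Ψ.av (fun u v w => F v w u) = Ψ.av F ∧ Ψ.av (fun u v w => F w u v) = Ψ.av F) ∧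
  (∀ F G : V → V → V → ℝ, Co3 F → Co3 G →
    (∀ c d : ℝ, Ψ.av (fun u v w => c * F u v w + d * G u v w) = c * Ψ.av F + d * Ψ.av G) ∧
    ((∀ u v w, Ψ.Tri u v w → F u v w ≤ G u v w) → Ψ.av F ≤ Ψ.av G) ∧
    ((∀ u v w, Ψ.Tri u v w → F u v w = G u v w) → Ψ.av F = Ψ.av G)) ∧
  (∀ c : ℝ, Ψ.av (fun _ _ _ => c) = c) ∧
  (∀ k : V → V → ℝ, Ψ.av (fun u v _ => k u v) = Ψ.fr.av k) ∧
  ∀ (X : Type) [TopologicalSpace X] [FirstCountableTopology X] (F : X → V → V → V → ℝ),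
    Continuous (fun z : X × V × V × V => F z.1 z.2.1 z.2.2.1 z.2.2.2) →
    Continuous (fun p => Ψ.av (F p))

/-- Integration of the one dimensional inequalities; differentiation under the average.

Proof. As `Q.I.Fub`, `Q.I.Int`. -/
def cInt : Prop := ∀ (V : Type) [NormedAddCommGroup V] [InnerProductSpace ℝ V] [CompleteSpace V]
  (e : ℕ) (Ψ : Fr3 V e) (h h' : ℝ → V → V → V → ℝ),
  Continuous (fun z : ℝ × V × V × V => h z.1 z.2.1 z.2.2.1 z.2.2.2) →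
  Continuous (fun z : ℝ × V × V × V => h' z.1 z.2.1 z.2.2.1 z.2.2.2) →
  (∀ s u v w, HasDerivAt (fun t => h t u v w) (h' s u v w) s) →
  (∀ s, HasDerivAt (fun t => Ψ.av (h t)) (Ψ.av (h' s)) s) ∧
  (∀ (α β : ℝ) (wt pot : ℝ → ℝ) (cα cβ : ℝ), α < β → ContinuousOn wt (Icc α β) →
    ContinuousOn pot (Icc α β) → Ineq1 α β wt pot cα cβ →
    Ψ.av (fun u v w => h β u v w ^ 2) * cβ - Ψ.av (fun u v w => h α u v w ^ 2) * cα ≤
    ∫ s in α..β, (Ψ.av (fun u v w => h' s u v w ^ 2) +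
      pot s * Ψ.av (fun u v w => h s u v w ^ 2)) * wt s) ∧
  ∀ k k' : ℝ → V → V → V → ℝ,
  Continuous (fun z : ℝ × V × V × V => k z.1 z.2.1 z.2.2.1 z.2.2.2) →
  Continuous (fun z : ℝ × V × V × V => k' z.1 z.2.1 z.2.2.1 z.2.2.2) →
  (∀ s u v w, HasDerivAt (fun t => k t u v w) (k' s u v w) s) →
  ∀ (α β : ℝ) (wt q11 q12 q22 : ℝ → ℝ) (cα dα cβ dβ : ℝ), α < β → ContinuousOn wt (Icc α β) →
    ContinuousOn q11 (Icc α β) → ContinuousOn q12 (Icc α β) → ContinuousOn q22 (Icc α β) →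
    Ineq2 α β wt q11 q12 q22 cα dα cβ dβ →
    (Ψ.av (fun u v w => h β u v w ^ 2) * cβ + Ψ.av (fun u v w => k β u v w ^ 2) * dβ) -
      (Ψ.av (fun u v w => h α u v w ^ 2) * cα + Ψ.av (fun u v w => k α u v w ^ 2) * dα) ≤
    ∫ s in α..β, (Ψ.av (fun u v w => h' s u v w ^ 2) + Ψ.av (fun u v w => k' s u v w ^ 2) +
      Ψ.av (fun u v w => q11 s * h s u v w ^ 2 + 2 * q12 s * (h s u v w * k s u v w) +
        q22 s * k s u v w ^ 2)) * wt s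

/-- The averaging operator over the orthogonal vectors: path argument.

Proof. Write `E` for the average over `g`, `A = A g`. For every unit `y ∈ V` choose (`cTri`) a unit
`z` with `Pair a z`, `Pair y z`. Then
`E (h(A a) - h(A y))² ≤ 2 E (h(A a) - h(A z))² + 2 E (h(A z) - h(A y))² = 4 D`,
`D = av ((h u - h v)²) = 2 (av (h u ²) - av (h u h v))` (`Frm.inv` for the pairs `(a,z)`, `(z,y)`).
Integrate over `y` in the unit sphere (`Φ.L`, `sig`): for fixed `g`, `∫ h(A y) dy = ∫ h(y) dy = 0`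
by `clSig` and `clUnif` (`av (fun u _ => h u) = 0`), and the same for `∫ h(A y)² dy`. So
`2 av (h²) ≤ 4 D = 8 (av h² - av (h u h v))`. -/
def cPath : Prop := ∀ (V : Type) [NormedAddCommGroup V] [InnerProductSpace ℝ V] [CompleteSpace V]
  (e : ℕ) (Ψ : Fr3 V e) (h : V → ℝ), Continuous h → Ψ.fr.av (fun u _ => h u) = 0 →
  Ψ.fr.av (fun u v => h u * h v) ≤ 3 / 4 * Ψ.fr.av (fun u _ => h u ^ 2)

/-- Poincaré inequality for the average over the second vector.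

Proof. This is the second half of the proof of `clGee` (`Q.I.Gee`): `P2 g` is `C^1` and even, its
spherical gradient is estimated by `clP2D`, and the spectral gap of the even functions on the unit
sphere of `V` (dimension `n = 3 (e+1)`) is `2 n` (`clESph`, `clUnif`, `clP2F`). -/
def cB2 : Prop := ∀ (V : Type) [NormedAddCommGroup V] [InnerProductSpace ℝ V] [CompleteSpace V]
  (n e : ℕ) (Φ : Frm V n e) (g : V → V → ℝ),
  ContDiff ℝ 1 (fun z : V × V => g z.1 z.2) → (∀ v w, g (-v) w = g v w) →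
  (∀ v w, g v (-w) = g v w) →
  Φ.av (fun v _ => Φ.P2 g v ^ 2) - Φ.av g ^ 2 ≤
    Φ.av (fun v w => Φ.n1 g v w + ∑ q, Φ.om q g v w ^ 2) / (2 * (n : ℝ))

/-! ## Part 3: the map `B` -/

/-- Elementary facts on `B`.

Proof. `B` is bilinear (`add_l`, `smul_l`, `symm`) and `V` is finite dimensional (`Φ.L`), hence
smooth. `B (J p v) (J q v)` polarised (`v → v + w`) gives `B (J q v) (J q w) = B v w` for `p = q`
(use `symm`). `B v (J q w) = B (Js q v) w`: for `q ≠ 0` apply this with `v = J q (Js q v)`. `inn`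
polarised twice gives the inner products (`∑_q ⟨v, J q w⟩ ⟨v', J q w⟩ =
⟪B v v', B w w⟫` first). -/
def cB : Prop := ∀ (V : Type) [NormedAddCommGroup V] [InnerProductSpace ℝ V] [CompleteSpace V]
  (e : ℕ) (Ψ : Fr3 V e) (M : Type) [NormedAddCommGroup M] [InnerProductSpace ℝ M]
  [CompleteSpace M] (T : Hrm Ψ M),
  ContDiff ℝ 1 (fun z : V × V => T.B z.1 z.2) ∧
  (∀ v w w' : V, T.B v (w + w') = T.B v w + T.B v w') ∧
  (∀ (r : ℝ) (v w : V), T.B v (r • w) = r • T.B v w) ∧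
  (∀ q v w, T.B (Ψ.fr.J q v) (Ψ.fr.J q w) = T.B v w) ∧
  (∀ q v w, T.B v (Ψ.fr.J q w) = T.B (Ψ.fr.Js q v) w) ∧
  (∀ q, q ≠ 0 → ∀ v, T.B v (Ψ.fr.J q v) = 0) ∧
  (∀ v, T.B (-v) (-v) = T.B v v) ∧
  (∀ q v, T.B (Ψ.fr.J q v) (Ψ.fr.J q v) = T.B v v) ∧
  (∀ u v w z : V, (inner ℝ (T.B u v) (T.B w z) : ℝ) =
    (∑ q, (inner ℝ u (Ψ.fr.J q w) * inner ℝ v (Ψ.fr.J q z) +
      inner ℝ u (Ψ.fr.J q z) * inner ℝ v (Ψ.fr.J q w))) / 2) ∧
  (∀ u v w, Ψ.Tri u v w → ‖T.B u u‖ = 1 ∧ (inner ℝ (T.B u u) (T.B v v) : ℝ) = 0 ∧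
    (∀ q, (inner ℝ (T.B u u) (T.B v (Ψ.fr.J q w)) : ℝ) = 0) ∧
    (∀ q, (inner ℝ (T.B v v) (T.B v (Ψ.fr.J q w)) : ℝ) = 0) ∧
    (∀ q, (inner ℝ (T.B w w) (T.B v (Ψ.fr.J q w)) : ℝ) = 0) ∧
    ∀ p q, (inner ℝ (T.B v (Ψ.fr.J p w)) (T.B v (Ψ.fr.J q w)) : ℝ) = if p = q then 1 / 2 else 0)

/-- The spheres in the orbits: points and rotated frames.

Proof. Let `J_a w = ∑ a_q J q w` for a unit vector `a ∈ ℝ^(e+1)` (an isometry by `Jorth`), `Js_a`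
its adjoint, `c = (cos 2t, sin 2t · a)`; `v' = cos t v + sin t J_a w`,
`w' = cos t w - sin t Js_a v`. `B (J_a w) (J_a w) = B w w` (`jj`), `B v (J_a w) = B (Js_a v) w`. The
orthogonality: `⟨v', J q w'⟩ = cos t sin t (⟨J_a w, J q w⟩ - ⟨v, J q (Js_a v)⟩) = 0`, because
`⟨v, J q Js_a v⟩ = ⟨Js q v, Js_a v⟩ = a_q = ⟨J_a w, J q w⟩` and the other terms vanish by `orthC`. -/
def cRot : Prop := ∀ (V : Type) [NormedAddCommGroup V] [InnerProductSpace ℝ V] [CompleteSpace V]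
  (e : ℕ) (Ψ : Fr3 V e) (M : Type) [NormedAddCommGroup M] [InnerProductSpace ℝ M]
  [CompleteSpace M] (T : Hrm Ψ M),
  Continuous (fun z : V × V × E (e + 2) => T.sg z.1 z.2.1 z.2.2) ∧
  (∀ (v w : V) (c c' : E (e + 2)) (r : ℝ), T.sg v w (c + r • c') = T.sg v w c + r • T.sg v w c') ∧
  (∀ u v w, Ψ.Tri u v w → ∀ c : E (e + 2), ‖T.sg v w c‖ ^ 2 = 2 * ‖c‖ ^ 2) ∧
  ∀ u v w, Ψ.Tri u v w → ∀ c : E (e + 2), ‖c‖ = 1 → ∃ v' w', Ψ.Tri u v' w' ∧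
    T.B v' v' = (1 / 2 : ℝ) • (T.B v v + T.B w w + T.sg v w c) ∧
    T.B w' w' = (1 / 2 : ℝ) • (T.B v v + T.B w w - T.sg v w c) ∧
    T.B v' v' - T.B w' w' = T.sg v w c

/-- Two frames with the same first vector.

Proof. For a triple `(u, v, w)` and `Y : M` let `κ(Y) = (1/2) ⟨Y, B v v - B w w⟩² + 2 ∑_q
⟨Y, B v (J q w)⟩²`. By `pars` for `(u, v, w)` and `(u, v', w')`, `sum`, and
`∑_q (⟨Y, B u (J q v)⟩² + ⟨Y, B u (J q w)⟩²)` being the same for both (it is the square of the norm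
of the projection of the vector representing `z ↦ ⟨Y, B u z⟩` to the space orthogonal to all
`J q u`, of which `{J q v, J q w}` and `{J q v', J q w'}` are orthonormal bases, since
`dim V = 3 (e+1)`), `κ(Y) = κ'(Y)` (`y_v² + y_w² = (y_v + y_w)²/2 + (y_v - y_w)²/2`). `κ(Y)` is the
square of the norm of the projection of `Y` to the range of `sg v w` (`sg v w / √2` is isometric by
`cRot`). For `Y = sg v' w' c`, `κ'(Y) = ‖Y‖²`, so `Y` is in the range of `sg v w`. -/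
def cKF : Prop := ∀ (V : Type) [NormedAddCommGroup V] [InnerProductSpace ℝ V] [CompleteSpace V]
  (e : ℕ) (Ψ : Fr3 V e) (M : Type) [NormedAddCommGroup M] [InnerProductSpace ℝ M]
  [CompleteSpace M] (T : Hrm Ψ M) (u v w v' w' : V), Ψ.Tri u v w → Ψ.Tri u v' w' →
  ∃ O : E (e + 2) →ₗᵢ[ℝ] E (e + 2), ∀ c, T.sg v' w' c = T.sg v w (O c)

/-- The energies in terms of functions of pairs.

Proof. `pf Θ` is `C^1` (`cB`). For a triple `(u, v, w)`, `one - B u u - B v v = B w w`. The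
derivative of `pf Θ` in the second variable in the direction `h` is
`2 ⟨∂₂Θ - ∂₃Θ, B v h⟩`, in the first variable `2 ⟨∂₁Θ - ∂₃Θ, B u h⟩`. `n2` is the sum of the squares
over the orthonormal basis `J q w` of the directions orthogonal to `v` and to all `J q u`
(`2 ⟨G, B v (J q v)⟩ = 0` for `q ≠ 0`), similarly `n1`; and
`om q = 2 ⟨∂₁Θ - ∂₃Θ, B u (J q v)⟩ - 2 ⟨∂₂Θ - ∂₃Θ, B v (Js q u)⟩ = 2 ⟨∂₁Θ - ∂₂Θ, B u (J q v)⟩`,
up to sign `dd q (s13 Θ) w v u`. -/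
def cN : Prop := ∀ (V : Type) [NormedAddCommGroup V] [InnerProductSpace ℝ V] [CompleteSpace V]
  (e : ℕ) (Ψ : Fr3 V e) (M : Type) [NormedAddCommGroup M] [InnerProductSpace ℝ M]
  [CompleteSpace M] (T : Hrm Ψ M) (Θ : M → M → M → ℝ), Ci3 Θ →
  ContDiff ℝ 1 (fun z : V × V => T.pf Θ z.1 z.2) ∧
  (∀ u v, T.pf Θ (-u) v = T.pf Θ u v ∧ T.pf Θ u (-v) = T.pf Θ u v) ∧
  Co3 (T.ev Θ) ∧ (∀ q, Co3 (T.dd q Θ)) ∧
  ∀ u v w, Ψ.Tri u v w → T.pf Θ u v = T.ev Θ u v w ∧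
    Ψ.fr.n2 (T.pf Θ) u v = ∑ q, T.dd q Θ u v w ^ 2 ∧
    Ψ.fr.n1 (T.pf Θ) u v = ∑ q, T.dd q (s12 Θ) v u w ^ 2 ∧
    ∑ q, Ψ.fr.om q (T.pf Θ) u v ^ 2 = ∑ q, T.dd q (s13 Θ) w v u ^ 2

/-- The energy form.

Proof. `pg2`, `pg3` are linear in `Θ`. `dd q (s23 Θ) u v w = -2 ⟨pg2 Θ - pg3 Θ at (u, w, v),
B v (J q w)⟩`, and `B v (J q w) = B w (Js q v) = ± B w (J q v)`, so
`dd q (s23 Θ) u v w * dd q (s23 Ξ) u v w = dd q Θ u w v * dd q Ξ u w v`; then `cAv`. -/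
def cEb : Prop := ∀ (V : Type) [NormedAddCommGroup V] [InnerProductSpace ℝ V] [CompleteSpace V]
  (e : ℕ) (Ψ : Fr3 V e) (M : Type) [NormedAddCommGroup M] [InnerProductSpace ℝ M]
  [CompleteSpace M] (T : Hrm Ψ M),
  (∀ Θ Ξ : M → M → M → ℝ, Ci3 Θ → Ci3 Ξ → T.Eb Θ Ξ = T.Eb Ξ Θ ∧
    T.Eb (s23 Θ) (s23 Ξ) = T.Eb Θ Ξ ∧ 0 ≤ T.Eb Θ Θ) ∧
  (∀ Θ Θ' Ξ : M → M → M → ℝ, Ci3 Θ → Ci3 Θ' → Ci3 Ξ → ∀ c d : ℝ,
    T.Eb (fun X Y Z => c * Θ X Y Z + d * Θ' X Y Z) Ξ = c * T.Eb Θ Ξ + d * T.Eb Θ' Ξ) ∧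
  ∀ (Θ : M → M → M → ℝ) (c : ℝ), Ci3 Θ → T.Eb Θ (fun _ _ _ => c) = 0

/-- Poincaré inequalities on the spheres in the orbits.

Proof. Fix `g` and let `(u, v, w)` be the frame `(A a, A b, A c)`, `γ(c) = at' Θ u v w c` on
`E (e+2)`; it is `C^1`, and `claimPoin` (`n = e + 2`, constant `e + 1`) gives
`(e+1) VV γ ≤ ∫ |∇_S γ|²`; if `Θ X Z Y = Θ X Y Z` then `γ(-c) = γ(c)` and `clESph` gives
`2 (e+2) VV γ ≤ ∫ |∇_S γ|²`. Average over `g`. For fixed unit `c`, with the rotated frame `(v', w')`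
of `cRot` (it is rotated together with the frame: take it at `(a, b, c)` and apply `A g`),
`at' Θ u v w c = ev Θ u v' w'`, and by `cKF`, `sg v' w' = sg v w ∘ O`, `O e₀ = c`,
`dd q Θ u v' w' = ⟨∂₂Θ - ∂₃Θ, sg v w (O e_(q+1))⟩ = 2 ⟨∇γ(c), O e_(q+1)⟩`, hence
`∑ (dd q)² = 4 |∇_S γ(c)|²` at `c`. So the average over `g` of `|∇_S γ(c)|²` is `Eb Θ Θ / 4`, that of
`γ(c)²` is `Ex Θ²` (`cAv`). `(∫ γ)²/|S| = |S| (CC Θ)²`. -/
def cFib : Prop := ∀ (V : Type) [NormedAddCommGroup V] [InnerProductSpace ℝ V] [CompleteSpace V]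
  (e : ℕ) (Ψ : Fr3 V e) (M : Type) [NormedAddCommGroup M] [InnerProductSpace ℝ M]
  [CompleteSpace M] (T : Hrm Ψ M) (Θ : M → M → M → ℝ), Ci3 Θ →
  Co3 (T.CC Θ) ∧
  4 * ((e : ℝ) + 1) * (T.Ex (fun X Y Z => Θ X Y Z ^ 2) - Ψ.av (fun u v w => T.CC Θ u v w ^ 2)) ≤
    T.Eb Θ Θ ∧
  ((∀ X Y Z, Θ X Z Y = Θ X Y Z) →
    8 * ((e : ℝ) + 2) * (T.Ex (fun X Y Z => Θ X Y Z ^ 2) - Ψ.av (fun u v w => T.CC Θ u v w ^ 2)) ≤
      T.Eb Θ Θ) ∧
  ((∀ X Y Z, Θ X Z Y = -Θ X Y Z) → ∀ u v w, T.CC Θ u v w = 0)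

/-- The two averages.

Proof. Let `K(g) = CC Θ` at the frame `g`, `H(g) = P2 (pf Θ) (A g a)`. (i) For a triple
`(u, v', w')`, `(u, v, w)`: `CC Θ u v' w' = CC Θ u v w`, by `cKF`, `sum` and `clSig`. (ii)
`∫ K² = ∫ K · ev Θ`: for fixed `c`, with the rotated frame, `∫ K(g) at' Θ (g) c =
∫ CC Θ (A a, A b', A c') ev Θ (A a, A b', A c') = ∫ K · ev Θ` (`cAv`, (i), continuity of
`(u,v,w) ↦ CC Θ u v w * ev Θ u v w`), and integrate over `c`. (iii) `∫ K H = ∫ K · ev Θ`: by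
`clP2F`, `H(g)` is the average over the unit `y ∈ E (n - (e+1))` of `pf Θ (A a) (A (ι y))`; for
fixed `y` complete `a, ι y` to a triple (`cTri`) and use (i) and `cAv`. So `∫ K² = ∫ K H`, and
Cauchy-Schwarz. -/
def cCP : Prop := ∀ (V : Type) [NormedAddCommGroup V] [InnerProductSpace ℝ V] [CompleteSpace V]
  (e : ℕ) (Ψ : Fr3 V e) (M : Type) [NormedAddCommGroup M] [InnerProductSpace ℝ M]
  [CompleteSpace M] (T : Hrm Ψ M) (Θ : M → M → M → ℝ), Ci3 Θ →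
  Ψ.av (fun u v w => T.CC Θ u v w ^ 2) ≤ Ψ.fr.av (fun u _ => Ψ.fr.P2 (T.pf Θ) u ^ 2)

/-- The symmetric functions.

Proof. Let `μ = Ex Θ`, `I = Ex Θ² - μ²`, `H² = av (P2 (pf Θ)²) - μ²`, `E = Eb Θ Θ`, `m = e + 1`.
`cFib`, `cCP`: `I - H² ≤ E/(8(m+1))`. If `e ≥ 1`: `cB2` with `n = 3m` and `cN` (all three energies
are equal to `E`, by `cAv`): `H² ≤ 2E/(6m)`, and `1/(8(m+1)) + 1/(3m) ≤ 3/(2(3m+1))` for `m ≥ 2`
(`8 ≤ 3m² + m`). If `e = 0` (and in fact always) let `h = P2 (pf Θ) - μ` (replace `Θ` by `Θ - μ`),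
then by `clP2F` and the symmetry `av (Θ h(u)) = av (Θ h(v)) = av (Θ h(w)) = av h² = H²`, by `cPath`
`av ((h(u) + h(v) + h(w))²) ≤ (3 + 6 · 3/4) H²`, Cauchy-Schwarz: `9 H⁴ ≤ I · (15/2) H²`,
`H² ≤ (5/6) I`, so `I/6 ≤ E/16`, `(8/3) I ≤ E` (`m = 1`). -/
def cSym : Prop := ∀ (V : Type) [NormedAddCommGroup V] [InnerProductSpace ℝ V] [CompleteSpace V]
  (e : ℕ) (Ψ : Fr3 V e) (M : Type) [NormedAddCommGroup M] [InnerProductSpace ℝ M]
  [CompleteSpace M] (T : Hrm Ψ M) (Θ : M → M → M → ℝ), Ci3 Θ →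
  (∀ X Y Z, Θ X Z Y = Θ X Y Z) → (∀ X Y Z, Θ Y X Z = Θ X Y Z) →
  2 / 3 * (3 * ((e : ℝ) + 1) + 1) * (T.Ex (fun X Y Z => Θ X Y Z ^ 2) - T.Ex Θ ^ 2) ≤ T.Eb Θ Θ

/-- Decomposition of the `L²`-norm.

Proof. By `cAv`, `Ex (Θ_σ Θ_τ)` depends only on `σ⁻¹ τ`; so all quantities are linear combinations
of `β = Ex Θ²`, `t₂₃ = Ex (Θ · s23 Θ)`, `t₁₂`, `t₁₃`, `γ = Ex (Θ · (X Y Z ↦ Θ Y Z X))`. -/
def cPar : Prop := ∀ (V : Type) [NormedAddCommGroup V] [InnerProductSpace ℝ V] [CompleteSpace V]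
  (e : ℕ) (Ψ : Fr3 V e) (M : Type) [NormedAddCommGroup M] [InnerProductSpace ℝ M]
  [CompleteSpace M] (T : Hrm Ψ M) (Θ : M → M → M → ℝ), Co3 Θ →
  T.Ex (fun X Y Z => Θ X Y Z ^ 2) =
    3 / 2 * (T.Ex (fun X Y Z => pX Θ X Y Z ^ 2) + T.Ex (fun X Y Z => pY Θ X Y Z ^ 2)) +
    T.Ex (fun X Y Z => pN Θ X Y Z ^ 2) + T.Ex (fun X Y Z => pS Θ X Y Z ^ 2) ∧
  T.Ex (pS Θ) = T.Ex Θ ∧ T.Ex Θ ^ 2 ≤ T.Ex (fun X Y Z => pS Θ X Y Z ^ 2) ∧
  T.Ex (fun X Y Z => (pS Θ X Y Z - T.Ex Θ) ^ 2) =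
    T.Ex (fun X Y Z => pS Θ X Y Z ^ 2) - T.Ex Θ ^ 2 ∧
  T.Ex (fun X Y Z => ((Θ X Y Z - Θ X Z Y) / 2) ^ 2) =
    3 / 4 * T.Ex (fun X Y Z => d3 (pX Θ X Y Z) (pY Θ X Y Z) ^ 2) +
      T.Ex (fun X Y Z => pN Θ X Y Z ^ 2) ∧
  T.Ex (fun X Y Z => ((Θ X Y Z - Θ Y X Z) / 2) ^ 2) =
    3 / 4 * T.Ex (fun X Y Z => d1 (pX Θ X Y Z) (pY Θ X Y Z) ^ 2) +
      T.Ex (fun X Y Z => pN Θ X Y Z ^ 2) ∧
  T.Ex (fun X Y Z => ((Θ X Y Z - Θ Z Y X) / 2) ^ 2) =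
    3 / 4 * T.Ex (fun X Y Z => (pX Θ X Y Z + pY Θ X Y Z) ^ 2) +
      T.Ex (fun X Y Z => pN Θ X Y Z ^ 2)

/-- The inequality on the orbits; `a = x - y`, `b = x - z`, `c = y - z`, and
`(a² + b² + c²)/3 = x² + y² + z²`.

Proof. Let `E₂₃ Θ = Eb Θ Θ`, `E₁₃ Θ = Eb (s12 Θ) (s12 Θ)`, `E₁₂ Θ = Eb (s13 Θ) (s13 Θ)`. By `cFib`
(odd functions) and `cEb` (the parallelogram identity), `E₂₃ Θ ≥ 4m ‖odd₂₃ Θ‖² + E₂₃ (even₂₃ Θ)`,
similarly for the others; `Ex` of the squares of the odd parts is in `cPar` (note that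
`s12 Θ - s23 (s12 Θ)` is `s12` of `Θ - s13 Θ`, and `s13 Θ - s23 (s13 Θ)` is `s13` of
`Θ - s12 Θ`). For the even parts: `S = pS Θ`, `E = Eb S S`, `ρ = (a²+b²+c²)/3`, `λ = 1/(2ρ)`,
`w₂₃ = 1/(2c²)` etc.: `w₂₃ E₂₃(Y) ≥ 2λ E₂₃(Y, S) - (λ²/w₂₃) E` (positivity of the form at
`Y - (λ/w₂₃) S`). `∑ E_ij (even_ij Θ, S) = ∑ E_ij (Θ, S) = 3E` (the left side does not change
if `Θ` is replaced by a permutation of `Θ`, by `cEb` and `cAv`; average over the permutations), and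
`∑ 1/w_ij = 6ρ`. So the even parts contribute `≥ 3E/ρ - 3E/(2ρ) = (3/2) E/ρ`, and `cSym` gives
`(3/2) E ≥ (3m+1) (Ex S² - (Ex Θ)²)`. -/
def cFix : Prop := ∀ (V : Type) [NormedAddCommGroup V] [InnerProductSpace ℝ V] [CompleteSpace V]
  (e : ℕ) (Ψ : Fr3 V e) (M : Type) [NormedAddCommGroup M] [InnerProductSpace ℝ M]
  [CompleteSpace M] (T : Hrm Ψ M) (Θ : M → M → M → ℝ) (a b c : ℝ), Ci3 Θ → 0 < a → 0 < c →
  b = a + c →
  2 * ((e : ℝ) + 1) / a ^ 2 * T.Ex (fun X Y Z => ((Θ X Y Z - Θ Y X Z) / 2) ^ 2) +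
    2 * ((e : ℝ) + 1) / b ^ 2 * T.Ex (fun X Y Z => ((Θ X Y Z - Θ Z Y X) / 2) ^ 2) +
    2 * ((e : ℝ) + 1) / c ^ 2 * T.Ex (fun X Y Z => ((Θ X Y Z - Θ X Z Y) / 2) ^ 2) +
    (3 * ((e : ℝ) + 1) + 1) / ((a ^ 2 + b ^ 2 + c ^ 2) / 3) *
      (T.Ex (fun X Y Z => pS Θ X Y Z ^ 2) - T.Ex Θ ^ 2) ≤
  T.Orb a b c Θ

/-! ## Part 4: assembly -/

/-- Pointwise facts.

Proof. `pg2 (Uf f x y z) = y ∇f`, `pg3 = z ∇f` etc., so `dd q (Uf f x y z) u v w =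
2 (y - z) ⟨∇f, B v (J q w)⟩`, `dd q (s12 U) v u w = 2 (x - z) ⟨∇f, B u (J q w)⟩`,
`dd q (s13 U) w v u = 2 (y - x) ⟨∇f, B v (J q u)⟩` (and `B v (J q u) = ± B u (J q v)`). With
`y_i = ⟨∇f, B u_i u_i⟩` and the orthonormal basis `(1,1,1)/√3`, `(x', y', z')`,
`(y'-z', z'-x', x'-y')/√3` of `ℝ³`: `∑ y_i² - (∑ y_i)²/3 = ⟨y, x'⟩² + ⟨y, ν⟩²`. -/
def cPt : Prop := ∀ (V : Type) [NormedAddCommGroup V] [InnerProductSpace ℝ V] [CompleteSpace V]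
  (e : ℕ) (Ψ : Fr3 V e) (M : Type) [NormedAddCommGroup M] [InnerProductSpace ℝ M]
  [CompleteSpace M] (T : Hrm Ψ M) (f : M → ℝ), ContDiff ℝ 1 f →
  (∀ x y z : ℝ, Ci3 (Uf f x y z)) ∧
  (∀ x y z x' y' z' : ℝ, x' + y' + z' = 0 → x' ^ 2 + y' ^ 2 + z' ^ 2 = 1 →
    Co3 (T.gS f x y z x' y' z') ∧ 0 ≤ Ψ.av (T.gS f x y z x' y' z') ∧
    (x ≠ y → x ≠ z → y ≠ z → Ψ.av (T.gS f x y z x' y' z') =
      T.Ex (fun X Y Z => Vf f x y z x' y' z' X Y Z ^ 2) +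
        T.Orb (x - y) (x - z) (y - z) (Uf f x y z))) ∧
  (∀ x y z : ℝ → ℝ, ContDiff ℝ 2 x → ContDiff ℝ 2 y → ContDiff ℝ 2 z →
    (∀ s X Y Z, HasDerivAt (fun t => Uf f (x t) (y t) (z t) X Y Z)
      (Vf f (x s) (y s) (z s) (deriv x s) (deriv y s) (deriv z s) X Y Z) s) ∧
    Continuous (fun p : ℝ × M × M × M => Uf f (x p.1) (y p.1) (z p.1) p.2.1 p.2.2.1 p.2.2.2) ∧
    Continuous (fun p : ℝ × M × M × M => Vf f (x p.1) (y p.1) (z p.1) (deriv x p.1) (deriv y p.1)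
      (deriv z p.1) p.2.1 p.2.2.1 p.2.2.2) ∧
    Continuous (fun s => Ψ.av (T.gS f (x s) (y s) (z s) (deriv x s) (deriv y s) (deriv z s))))

section defs

variable {V : Type} [NormedAddCommGroup V] [InnerProductSpace ℝ V] [CompleteSpace V] {e : ℕ}
  {Ψ : Fr3 V e} {M : Type} [NormedAddCommGroup M] [InnerProductSpace ℝ M] [CompleteSpace M]
  (T : Hrm Ψ M) (f : M → ℝ) (x y : ℝ → ℝ)

/-- `f` on the orbit over the point `(x s, y s)` of the curve. -/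
noncomputable def Us (s : ℝ) : M → M → M → ℝ :=
  Uf f (e1 (x s) (y s)) (e2 (x s) (y s)) (e3 (x s) (y s))

/-- Its derivative with respect to `s`. -/
noncomputable def Vs (s : ℝ) : M → M → M → ℝ :=
  Vf f (e1 (x s) (y s)) (e2 (x s) (y s)) (e3 (x s) (y s)) (e1 (deriv x s) (deriv y s))
    (e2 (deriv x s) (deriv y s)) (e3 (deriv x s) (deriv y s))

/-- The average of the square of the tangential gradient. -/
noncomputable def Gs (s : ℝ) : ℝ :=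
  Ψ.av (T.gS f (e1 (x s) (y s)) (e2 (x s) (y s)) (e3 (x s) (y s)) (e1 (deriv x s) (deriv y s))
    (e2 (deriv x s) (deriv y s)) (e3 (deriv x s) (deriv y s)))

/-- The boundary terms of the main inequality. -/
noncomputable def Bt3 (s : ℝ) : ℝ :=
  w3 (e + 1) x y s *
    (3 / 2 * (deriv x s / x s * T.Ex (fun X Y Z => pX (Us f x y s) X Y Z ^ 2) +
      deriv y s / y s * T.Ex (fun X Y Z => pY (Us f x y s) X Y Z ^ 2)) +
    (deriv x s + deriv y s) / (x s + y s) * T.Ex (fun X Y Z => pN (Us f x y s) X Y Z ^ 2) +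
    (x s * deriv x s + y s * deriv y s) / (x s ^ 2 + y s ^ 2) *
      (T.Ex (fun X Y Z => pS (Us f x y s) X Y Z ^ 2) - T.Ex (Us f x y s) ^ 2))

end defs

/-- The main inequality on a piece of the curve in the open chamber.

Proof. `Gs = Ex Vs² + Orb (d1) (x+y) (d3) (Us)` (`cPt`; `e1 - e2 = d1`, `e1 - e3 = x + y`,
`e2 - e3 = d3`, `e1² + e2² + e3² = x² + y²`, the same for the derivatives). Decompose `Ex Vs²` by
`cPar` (the components are linear, so `pX (Vs)` is the derivative of `pX (Us)` etc.), and `Orb` by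
`cFix` and `cPar`: `Gs ≥ (3/2) [Ex pX(V)² + Ex pY(V)² + (p11 pX² + 2 p12 pX pY + p22 pY²)]
+ [Ex pN(V)² + 2m (1/d1² + 1/(x+y)² + 1/d3²) Ex pN(U)²] + [Ex (pS(V) - Ex V)² + (3m+1)/r²
Ex (pS(U) - Ex U)²] + (Ex V)²`, where `(3/4) (2m) ∑ (…)² / d² = (3/2) (p11 X² + 2 p12 X Y + p22 Y²)`.
Apply `cInt` with `cSecV`, `cSecP`, `cSecR` (for the last one `h = pS (U) - Ex U`). -/
def cMain : Prop := ∀ (V : Type) [NormedAddCommGroup V] [InnerProductSpace ℝ V] [CompleteSpace V]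
  (e : ℕ) (Ψ : Fr3 V e) (M : Type) [NormedAddCommGroup M] [InnerProductSpace ℝ M]
  [CompleteSpace M] (T : Hrm Ψ M) (f : M → ℝ) (α β : ℝ) (x y : ℝ → ℝ), ContDiff ℝ 1 f → α < β →
  Crv3 (e + 1) α β x y →
  Bt3 T f x y β - Bt3 T f x y α + ∫ s in α..β, T.Ex (Vs f x y s) ^ 2 * w3 (e + 1) x y s ≤
    ∫ s in α..β, Gs T f x y s * w3 (e + 1) x y s

/-- The boundary terms at an end on the unit circle.

Proof. All coefficients are `κ`; `cPar`. -/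
def cBt : Prop := ∀ (V : Type) [NormedAddCommGroup V] [InnerProductSpace ℝ V] [CompleteSpace V]
  (e : ℕ) (Ψ : Fr3 V e) (M : Type) [NormedAddCommGroup M] [InnerProductSpace ℝ M]
  [CompleteSpace M] (T : Hrm Ψ M) (f : M → ℝ) (κ s : ℝ) (x y : ℝ → ℝ), ContDiff ℝ 1 f →
  0 < x s → 0 < y s → x s ^ 2 + y s ^ 2 = 1 → deriv x s = κ * x s → deriv y s = κ * y s →
  Bt3 T f x y s = κ * (w3 (e + 1) x y s *
    (T.Ex (fun X Y Z => Us f x y s X Y Z ^ 2) - T.Ex (Us f x y s) ^ 2))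

/-- Curves with two boundary components.

Proof. As `Q.I.Two`: `cMain` on `[0, L]`, `cBt` with `κ = 1` at `L` and `κ = -1` at `0`, and
`clInvF` with `cInv` for `K s = Ex (Us s)` (`cInt` for the derivative `Ex (Vs s)`). -/
def cTwo : Prop := ∀ (V : Type) [NormedAddCommGroup V] [InnerProductSpace ℝ V] [CompleteSpace V]
  (e : ℕ) (Ψ : Fr3 V e) (M : Type) [NormedAddCommGroup M] [InnerProductSpace ℝ M]
  [CompleteSpace M] (T : Hrm Ψ M) (f : M → ℝ) (L : ℝ) (x y : ℝ → ℝ), ContDiff ℝ 1 f →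
  Chd3 (e + 1) L x y →
  T.Ex (Us f x y L) * w3 (e + 1) x y L + T.Ex (Us f x y 0) * w3 (e + 1) x y 0 = 0 →
  T.Ex (fun X Y Z => Us f x y L X Y Z ^ 2) * w3 (e + 1) x y L +
    T.Ex (fun X Y Z => Us f x y 0 X Y Z ^ 2) * w3 (e + 1) x y 0 ≤
    ∫ s in (0 : ℝ)..L, Gs T f x y s * w3 (e + 1) x y s

/-- Curves with one boundary component.

Proof. `cMain` on `[α, L]`, `α ↓ 0`. `Bt3` is continuous on a neighbourhood of `0` in `[0, L]`
because `x 0, y 0 > 0`, and `Bt3 0 = 0` because `w3 0 = 0` (`d1 = 0` or `d3 = 0` at `0`, `m ≥ 1`).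
`Gs * w3` is continuous. Drop the integral of `(Ex V)²`, and use `Ex U = 0` at `L` in `cBt`. -/
def cOne : Prop := ∀ (V : Type) [NormedAddCommGroup V] [InnerProductSpace ℝ V] [CompleteSpace V]
  (e : ℕ) (Ψ : Fr3 V e) (M : Type) [NormedAddCommGroup M] [InnerProductSpace ℝ M]
  [CompleteSpace M] (T : Hrm Ψ M) (f : M → ℝ) (L : ℝ) (x y : ℝ → ℝ), ContDiff ℝ 1 f → 0 < L →
  ContDiff ℝ 2 x → ContDiff ℝ 2 y → (∀ α ∈ Ioo 0 L, Crv3 (e + 1) α L x y) →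
  x L ^ 2 + y L ^ 2 = 1 → deriv x L = x L → deriv y L = y L → 0 < x 0 → 0 < y 0 →
  (d1 (x 0) (y 0) = 0 ∨ d3 (x 0) (y 0) = 0) → T.Ex (Us f x y L) = 0 →
  T.Ex (fun X Y Z => Us f x y L X Y Z ^ 2) * w3 (e + 1) x y L ≤
    ∫ s in (0 : ℝ)..L, Gs T f x y s * w3 (e + 1) x y s

/-- The coordinates of a profile in the positive frame. -/
noncomputable def Profile.cx {m : ℕ} (P : Profile m) (s : ℝ) : ℝ := (P.x s - P.z s - √3 * P.y s) / 2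

noncomputable def Profile.cy {m : ℕ} (P : Profile m) (s : ℝ) : ℝ := (P.x s - P.z s + √3 * P.y s) / 2

/-- Profiles.

Proof. `x + y + z = 0`; `d1 cx cy = x - y`, `cx + cy = x - z`, `d3 cx cy = y - z`,
`cx² + cy² = x² + y² + z²`. `x' y'' - y' x'' = (cx' cy'' - cy' cx'')/√3`. The equation, which is
assumed on `(0, L)`, extends to `L`, and to `0` if the point is in the open chamber, by continuity.
The volume: `(3m+1) ∫ w = w (L) + w (0)` from `cEqn` (`w (cx cx' + cy cy')` at the ends; if the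
first point is on a wall then `w 0 = 0`). -/
def cVol : Prop := ∀ (m : ℕ) (P : Profile m), 1 ≤ m →
  (∀ s, P.w s = w3 m P.cx P.cy s) ∧
  (∀ s, e1 (P.cx s) (P.cy s) = P.x s ∧ e2 (P.cx s) (P.cy s) = P.y s ∧
    e3 (P.cx s) (P.cy s) = P.z s) ∧
  (∀ s, e1 (deriv P.cx s) (deriv P.cy s) = deriv P.x s ∧
    e2 (deriv P.cx s) (deriv P.cy s) = deriv P.y s ∧
    e3 (deriv P.cx s) (deriv P.cy s) = deriv P.z s) ∧
  (∀ s, deriv P.x s + deriv P.y s + deriv P.z s = 0) ∧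
  ContDiff ℝ 2 P.cx ∧ ContDiff ℝ 2 P.cy ∧
  (∀ α ∈ Ioo 0 P.L, Crv3 m α P.L P.cx P.cy) ∧
  (P.cx P.L ^ 2 + P.cy P.L ^ 2 = 1 ∧ deriv P.cx P.L = P.cx P.L ∧ deriv P.cy P.L = P.cy P.L) ∧
  (Chd3 m P.L P.cx P.cy ∨ (0 < P.cx 0 ∧ 0 < P.cy 0 ∧
    (d1 (P.cx 0) (P.cy 0) = 0 ∨ d3 (P.cx 0) (P.cy 0) = 0) ∧ P.w 0 = 0)) ∧
  0 < P.w P.L ∧ 0 ≤ P.w 0 ∧
  (3 * (m : ℝ) + 1) * ∫ s in (0 : ℝ)..P.L, P.w s = P.w P.L + P.w 0

section thm

variable {V : Type} [NormedAddCommGroup V] [InnerProductSpace ℝ V] [CompleteSpace V] {e : ℕ}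
  {Ψ : Fr3 V e} {M : Type} [NormedAddCommGroup M] [InnerProductSpace ℝ M] [CompleteSpace M]
  (T : Hrm Ψ M) (P : Profile (e + 1))

/-- The boundary integral. -/
noncomputable def bd (f : M → ℝ) : ℝ :=
  Ψ.av (fun u v w => f (T.X (P.x P.L) (P.y P.L) (P.z P.L) u v w)) * P.w P.L +
    Ψ.av (fun u v w => f (T.X (P.x 0) (P.y 0) (P.z 0) u v w)) * P.w 0

/-- The energy. -/
noncomputable def en (f : M → ℝ) : ℝ :=
  ∫ s in (0 : ℝ)..P.L, Ψ.av (T.gS f (P.x s) (P.y s) (P.z s) (deriv P.x s) (deriv P.y s)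
    (deriv P.z s)) * P.w s

end thm

/-- The theorem for abstract matrices: the inequality.

Proof. `cVol`, `cTwo`, `cOne`. -/
def cThm : Prop := ∀ (V : Type) [NormedAddCommGroup V] [InnerProductSpace ℝ V] [CompleteSpace V]
  (e : ℕ) (Ψ : Fr3 V e) (M : Type) [NormedAddCommGroup M] [InnerProductSpace ℝ M]
  [CompleteSpace M] (T : Hrm Ψ M) (P : Profile (e + 1)) (f : M → ℝ), ContDiff ℝ 1 f →
  bd T P f = 0 → bd T P (fun X => f X ^ 2) ≤ en T P f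

/-- The theorem for abstract matrices: some linear function realises equality.

Proof. Let `(a, b, c)` be the base triple, and `Y_i`, `i = 1, …, N`, `N = 3(e+1) + 2`, the
orthonormal vectors `(B a a - B c c)/√2`, `(B a a - 2 B b b + B c c)/√6`, `√2 B a (J q b)`,
`√2 B a (J q c)`, `√2 B b (J q c)` of `M` (`cB`). By `pars` at `(a, b, c)`,
`‖pr Y‖² = ∑ ⟨Y, Y_i⟩²` for all `Y`, in particular `‖pr Y_i‖ = 1`. For a point
`X = x B u u + y B v v + z B w w` with `x + y + z = 0`, `pars` at `(u, v, w)` gives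
`‖pr X‖² = x² + y² + z²`. Let `f_i X = ⟨Y_i, X⟩`. `bd f_i = 0`, since `av ⟨Y_i, B u u⟩ =
av ⟨Y_i, B v v⟩ = av ⟨Y_i, B w w⟩` and `x + y + z = 0`. `∑ f_i (X)² = 1` on the boundary, so
`∑ bd (f_i²) = w(L) + w(0)`; `∑ gS f_i = N - ‖pr ν‖² = N - 1 = 3m + 1`, so
`∑ en f_i = (3m+1) ∫ w = w(L) + w(0)` (`cVol`). By `cThm`, `bd (f_i²) ≤ en f_i` for all `i`, hence
equality for all `i`; and `bd (f_i²) > 0` for some `i` because the sum is positive. -/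
def cLin : Prop := ∀ (V : Type) [NormedAddCommGroup V] [InnerProductSpace ℝ V] [CompleteSpace V]
  (e : ℕ) (Ψ : Fr3 V e) (M : Type) [NormedAddCommGroup M] [InnerProductSpace ℝ M]
  [CompleteSpace M] (T : Hrm Ψ M) (P : Profile (e + 1)),
  ∃ f : M → ℝ, ContDiff ℝ 1 f ∧ bd T P f = 0 ∧ 0 < bd T P (fun X => f X ^ 2) ∧
    en T P f = bd T P (fun X => f X ^ 2)

/-! ## Part 5: the spaces of matrices -/

/-- The frames of `F^3`.

Proof. `clFrm` for `k = 3` gives `Φ` with `J q v = rmul (u q) v`. The proof of `clFrm` has to be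
repeated to know the group (or use the group `Un F 3`, `A = act`, `μ = hm F 3` again:
`Q.I.Frm`). The third vector is `bv F 3 2`. `inv3`: for an orthonormal triple `(r, v, w)` there is
`C ∈ Un F 3` with `C e_0 = r`, `C e_1 = v`, `C e_2 = w` (by `clTrans`: first `C₁ e_0 = r`; then
`C₂` fixes `r` and moves `C₁ e_1` to `v`; then `C₃` fixes `r`, `v` and moves `C₂ C₁ e_2` to `w`), and
the Haar measure is invariant (`clHaar`). -/
def cFr : Prop := ∀ (F : Type) [NormedRing F] [InnerProductSpace ℝ F] [StarRing F]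
  [CompleteSpace F] [IsDA F] (e : ℕ) (u : OrthonormalBasis (Fin (e + 1)) ℝ F), u 0 = 1 →
  ∃ Ψ : Fr3 (Vec F 3) e, (∀ q v, Ψ.fr.J q v = rmul (u q) v) ∧
    ∀ f : Vec F 3 → Vec F 3 → Vec F 3 → ℝ, Co3 f → avg F f = Ψ.av f

/-- The map `B`.

Proof. `B v w` is the matrix with the entries `(v_i w̄_j + w_i v̄_j)/2`, `pr` is the orthogonal
projection onto `herm0`, `one` is the unit matrix. `jj`: `v_i u_p ū_q v̄_j + v_i u_q ū_p v̄_j =
2 ⟨u_p, u_q⟩ v_i v̄_j`. `inn`: `⟨v v*, w w*⟩ = |v* w|²` and `⟨v, w u_q⟩ = ⟨w* v, u_q⟩`. `sum`: the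
matrix with the columns `u`, `v`, `w` is unitary. `pars`: the real orthonormal basis `v_i u_q v_j*`
of the space of all matrices, `(v_1, v_2, v_3) = (u, v, w)` (`clIn`); for Hermitian `X` the
coefficient of `v_i u_q v_j*` is `⟨X, B (v_i u_q) v_j⟩`, which vanishes for `i = j`, `q ≠ 0`;
`B (v_i u_q) v_j ∈ herm0` for `i ≠ j`, `⟨pr Y, B v_i v_i⟩ = ⟨Y, B v_i v_i - one/3⟩`. -/
def cHm : Prop := ∀ (F : Type) [NormedRing F] [InnerProductSpace ℝ F] [StarRing F]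
  [CompleteSpace F] [IsDA F] (e : ℕ) (u : OrthonormalBasis (Fin (e + 1)) ℝ F), u 0 = 1 →
  ∀ Ψ : Fr3 (Vec F 3) e, (∀ q v, Ψ.fr.J q v = rmul (u q) v) →
  ∃ T : Hrm Ψ (Mat3 F), (∀ v, T.B v v = prj v) ∧ ∀ X, T.pr X = (herm0 F).starProjection X

/-- The theorem for one algebra.

Proof. `clBas`, `cFr`, `cHm`, `cThm`, `cLin`; `P.pt`, `P.nu` are `T.X`, and `P.energy = en`,
`P.bdry = bd`. -/
def cStek : Prop := ∀ (F : Type) [NormedRing F] [InnerProductSpace ℝ F] [StarRing F]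
  [CompleteSpace F] [IsDA F], SteklovOne F

end Pool.Agent.Work.MP_408f4b_gt.A2
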